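import Pool.Agent.T9h20.TA.Spec

/-!
# (G): the drift integral
-/

set_option autoImplicit false

open MeasureTheory Set
open scoped ENNReal NNReal

namespace Pool.Agent.T9h53.TA

open Pool.Agent.T9h20.TA

/-- an affine function `l` has `∫ |l'| exp (-θ |l|) ≤ 2 / θ` -/
lemma affine_int (m k θ : ℝ) (hθ : 0 < θ) :
    ∫⁻ y : ℝ, ENNReal.ofReal (|m| * Real.exp (-(θ * |m * y + k|))) ≤ ENNReal.ofReal (2 / θ) := by
  by_cases hm : m = 0
  · subst hm
    simp
  have hm' : 0 < |m| := abs_pos.2 hm
  set p : ℝ := -k / m with hp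
  have hl : ∀ y, |m * y + k| = |m| * |y - p| := by
    intro y
    rw [← abs_mul]
    congr 1
    rw [hp]
    field_simp
    ring
  have hθm : 0 < θ * |m| := by positivity
  have h1 : ∫⁻ y in Ioi p, ENNReal.ofReal (|m| * Real.exp (-(θ * |m * y + k|))) ≤ ENNReal.ofReal (1 / θ) := by
    have e : ∫⁻ y in Ioi p, ENNReal.ofReal (|m| * Real.exp (-(θ * |m * y + k|))) =
        ∫⁻ y in Ioi p, ENNReal.ofReal ((|m| * Real.exp (θ * |m| * p)) * Real.exp (-(θ * |m|) * y)) := by
      refine setLIntegral_congr_fun measurableSet_Ioi fun y hy => ?_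
      have hy' : 0 ≤ y - p := by
        have : p < y := hy
        linarith
      rw [hl, abs_of_nonneg hy', mul_assoc |m|, ← Real.exp_add]
      congr 3
      ring
    rw [e, ← ofReal_integral_eq_lintegral_ofReal ((integrableOn_exp_mul_Ioi (by linarith) p).const_mul _)
      (Filter.Eventually.of_forall fun y => by positivity), integral_const_mul,
      integral_exp_mul_Ioi (by linarith) p]
    apply ENNReal.ofReal_le_ofReal
    have h2 : Real.exp (θ * |m| * p) * Real.exp (-(θ * |m|) * p) = 1 := by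
      rw [← Real.exp_add]
      have : θ * |m| * p + -(θ * |m|) * p = 0 := by ring
      rw [this, Real.exp_zero]
    apply le_of_eq
    calc _ = |m| * (Real.exp (θ * |m| * p) * Real.exp (-(θ * |m|) * p)) / (θ * |m|) := by
          field_simp
      _ = _ := by rw [h2]; field_simp
  have h2 : ∫⁻ y in Iic p, ENNReal.ofReal (|m| * Real.exp (-(θ * |m * y + k|))) ≤ ENNReal.ofReal (1 / θ) := by
    have e : ∫⁻ y in Iic p, ENNReal.ofReal (|m| * Real.exp (-(θ * |m * y + k|))) =
        ∫⁻ y in Iic p, ENNReal.ofReal ((|m| * Real.exp (-(θ * |m| * p))) * Real.exp ((θ * |m|) * y)) := by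
      refine setLIntegral_congr_fun measurableSet_Iic fun y hy => ?_
      have hy' : y - p ≤ 0 := by
        have : y ≤ p := hy
        linarith
      rw [hl, abs_of_nonpos hy', mul_assoc |m|, ← Real.exp_add]
      congr 3
      ring
    rw [e, ← ofReal_integral_eq_lintegral_ofReal ((integrableOn_exp_mul_Iic hθm p).const_mul _)
      (Filter.Eventually.of_forall fun y => by positivity), integral_const_mul,
      integral_exp_mul_Iic hθm p]
    apply ENNReal.ofReal_le_ofReal
    have h2 : Real.exp (-(θ * |m| * p)) * Real.exp (θ * |m| * p) = 1 := by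
      rw [← Real.exp_add]
      have : -(θ * |m| * p) + θ * |m| * p = 0 := by ring
      rw [this, Real.exp_zero]
    apply le_of_eq
    calc _ = |m| * (Real.exp (-(θ * |m| * p)) * Real.exp (θ * |m| * p)) / (θ * |m|) := by
          field_simp
      _ = _ := by rw [h2]; field_simp
  calc ∫⁻ y : ℝ, ENNReal.ofReal (|m| * Real.exp (-(θ * |m * y + k|))) =
        ∫⁻ y in Iic p ∪ Ioi p, ENNReal.ofReal (|m| * Real.exp (-(θ * |m * y + k|))) := by
        rw [Iic_union_Ioi, setLIntegral_univ]
    _ ≤ _ := lintegral_union_le _ _ _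
    _ ≤ ENNReal.ofReal (1 / θ) + ENNReal.ofReal (1 / θ) := add_le_add h2 h1
    _ = _ := by
      rw [← ENNReal.ofReal_add (by positivity) (by positivity)]
      congr 1
      ring

/-- a finite set of `N` points leaves `N + 1` intervals -/
lemma split_int (F : ℝ → ℝ≥0∞) (K : ℝ≥0∞) (P : Finset ℝ) : ∀ S : Set ℝ, S.OrdConnected →
    (∀ I ⊆ S, I.OrdConnected → (∀ p ∈ P, p ∉ I) → ∫⁻ y in I, F y ≤ K) →
      ∫⁻ y in S, F y ≤ ((P.card : ℝ≥0∞) + 1) * K := by
  induction P using Finset.induction_on_max with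
  | empty =>
    intro S hS h
    simpa using h S subset_rfl hS (by simp)
  | insert a P hP ih =>
    intro S hS h
    have haP : a ∉ P := fun h => lt_irrefl a (hP a h)
    have h1 : ∫⁻ y in S ∩ Iio a, F y ≤ ((P.card : ℝ≥0∞) + 1) * K := by
      refine ih _ (hS.inter ordConnected_Iio) fun I hI hIo hIP => ?_
      refine h I (hI.trans inter_subset_left) hIo fun p hp hpI => ?_
      rw [Finset.mem_insert] at hp
      rcases hp with hp | hp
      · subst hp
        exact lt_irrefl p (hI hpI).2
      · exact hIP p hp hpI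
    have h2 : ∫⁻ y in S ∩ Ioi a, F y ≤ K := by
      refine h _ inter_subset_left (hS.inter ordConnected_Ioi) fun p hp hpI => ?_
      rw [Finset.mem_insert] at hp
      have h3 : a < p := hpI.2
      rcases hp with hp | hp
      · subst hp
        exact lt_irrefl p h3
      · exact lt_asymm h3 (hP p hp)
    have h3 : ∫⁻ y in ({a} : Set ℝ), F y = 0 := by
      rw [Measure.restrict_singleton]
      simp
    have hsub : S ⊆ (S ∩ Iio a) ∪ ({a} ∪ (S ∩ Ioi a)) := by
      intro y hy
      rcases lt_trichotomy y a with h4 | h4 | h4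
      · exact Or.inl ⟨hy, h4⟩
      · exact Or.inr (Or.inl h4)
      · exact Or.inr (Or.inr ⟨hy, h4⟩)
    calc ∫⁻ y in S, F y ≤ ∫⁻ y in (S ∩ Iio a) ∪ ({a} ∪ (S ∩ Ioi a)), F y := lintegral_mono_set hsub
      _ ≤ (∫⁻ y in S ∩ Iio a, F y) + ∫⁻ y in {a} ∪ (S ∩ Ioi a), F y := lintegral_union_le _ _ _
      _ ≤ (∫⁻ y in S ∩ Iio a, F y) + ((∫⁻ y in ({a} : Set ℝ), F y) + ∫⁻ y in S ∩ Ioi a, F y) := by
        gcongr
        exact lintegral_union_le _ _ _
      _ ≤ ((P.card : ℝ≥0∞) + 1) * K + (0 + K) := by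
        rw [h3]
        gcongr
      _ = _ := by
        rw [Finset.card_insert_of_notMem haP]
        push_cast
        ring

/-- sign of an affine function on an interval without its zero -/
lemma affine_sign {I : Set ℝ} (hI : I.OrdConnected) {κ δ : ℝ} (h : δ ≠ 0 → -κ / δ ∉ I) {x y : ℝ}
    (hx : x ∈ I) (hy : y ∈ I) : (0 ≤ κ + δ * x → 0 ≤ κ + δ * y) ∧ (0 < κ + δ * x → 0 < κ + δ * y) := by
  by_cases hδ : δ = 0
  · subst hδ
    simp
  have key : ¬ (κ + δ * x) * (κ + δ * y) ≤ 0 := by
    intro hcon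
    apply h hδ
    have e1 : κ + δ * x = δ * (x - -κ / δ) := by field_simp; ring
    have e2 : κ + δ * y = δ * (y - -κ / δ) := by field_simp; ring
    rw [e1, e2] at hcon
    have h1 : (x - -κ / δ) * (y - -κ / δ) ≤ 0 := by
      have h2 : δ * (x - -κ / δ) * (δ * (y - -κ / δ)) = δ ^ 2 * ((x - -κ / δ) * (y - -κ / δ)) := by ring
      rw [h2] at hcon
      have h3 : 0 < δ ^ 2 := by positivity
      by_contra h4
      push Not at h4
      nlinarith [mul_pos h3 h4]
    refine hI.uIcc_subset hx hy ?_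
    rw [mem_uIcc]
    rcases mul_nonpos_iff.1 h1 with h2 | h2
    · right
      constructor <;> linarith [h2.1, h2.2]
    · left
      constructor <;> linarith [h2.1, h2.2]
  push Not at key
  constructor
  · intro h1
    by_contra h2
    push Not at h2
    nlinarith
  · intro h1
    by_contra h2
    push Not at h2
    nlinarith

lemma isSel_unique {t : ℕ} {c a : Fin t → ℝ} {y : ℝ} {s s' : Fin t} (h : IsSel c a y s)
    (h' : IsSel c a y s') : s = s' := by
  rcases lt_trichotomy s s' with h1 | h1 | h1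
  · exact absurd (h'.2 s h1) (not_lt.2 (h.1 s'))
  · exact h1
  · exact absurd (h.2 s' h1) (not_lt.2 (h'.1 s))

lemma mon_abs {t : ℕ} {c a : Fin t → ℝ} (hc : ∀ s, c s ≠ 0) (s : Fin t) (y : ℝ) :
    |mon c a s y| = Real.exp (Real.log |c s| + a s * y) := by
  unfold mon
  rw [abs_mul, Real.exp_add, Real.exp_log (abs_pos.2 (hc s)), abs_of_pos (Real.exp_pos _)]

/-- the crossing points -/
noncomputable def cross {n t : ℕ} (c a : Fin n → Fin t → ℝ) (x : Fin n × Fin t × Fin t) : ℝ :=
  -(Real.log |c x.1 x.2.2| - Real.log |c x.1 x.2.1|) / (a x.1 x.2.2 - a x.1 x.2.1)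

lemma sel_const {n t : ℕ} [NeZero t] {c a : Fin n → Fin t → ℝ} (hc : ∀ j s, c j s ≠ 0) {I : Set ℝ}
    (hI : I.OrdConnected) (hP : ∀ x, cross c a x ∉ I) {y0 y : ℝ} (h0 : y0 ∈ I) (hy : y ∈ I) (j : Fin n) :
    sel (c j) (a j) y = sel (c j) (a j) y0 := by
  have h := isSel_sel (c j) (a j) y0
  refine isSel_unique (isSel_sel (c j) (a j) y) ⟨fun r => ?_, fun r hr => ?_⟩
  · have h1 := h.1 r
    rw [mon_abs (hc j), mon_abs (hc j), Real.exp_le_exp] at h1 ⊢
    have h2 := (affine_sign hI (κ := Real.log |c j (sel (c j) (a j) y0)| - Real.log |c j r|)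
      (δ := a j (sel (c j) (a j) y0) - a j r) (fun _ => hP (j, r, sel (c j) (a j) y0)) h0 hy).1
    have h3 := h2 (by linarith)
    linarith
  · have h1 := h.2 r hr
    rw [mon_abs (hc j), mon_abs (hc j), Real.exp_lt_exp] at h1 ⊢
    have h2 := (affine_sign hI (κ := Real.log |c j (sel (c j) (a j) y0)| - Real.log |c j r|)
      (δ := a j (sel (c j) (a j) y0) - a j r) (fun _ => hP (j, r, sel (c j) (a j) y0)) h0 hy).2
    have h3 := h2 (by linarith)
    linarith

theorem sDrift : SDrift := by
  intro n t _ c a e θ hc hθ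
  set F : ℝ → ℝ≥0∞ := fun y => ENNReal.ofReal (|∑ j, e j * ta (c j) (a j) y| *
      Real.exp (-(θ * |∑ j, e j * Real.log (mx (c j) (a j) y)|))) with hF
  set P : Finset ℝ := Finset.image (cross c a) Finset.univ with hP
  have hcard : P.card ≤ n * t ^ 2 := by
    refine Finset.card_image_le.trans ?_
    rw [Finset.card_univ, Fintype.card_prod, Fintype.card_prod, Fintype.card_fin, Fintype.card_fin]
    apply le_of_eq
    ring
  have key : ∀ I ⊆ (univ : Set ℝ), I.OrdConnected → (∀ p ∈ P, p ∉ I) →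
      ∫⁻ y in I, F y ≤ ENNReal.ofReal (2 / θ) := by
    intro I _ hI hPI
    rcases I.eq_empty_or_nonempty with h | ⟨y0, h0⟩
    · rw [h]
      simp
    have hPx : ∀ x, cross c a x ∉ I := fun x =>
      hPI _ (Finset.mem_image.2 ⟨x, Finset.mem_univ _, rfl⟩)
    have hIm : MeasurableSet I := hI.measurableSet
    set m : ℝ := ∑ j, e j * a j (sel (c j) (a j) y0) with hm
    set k : ℝ := ∑ j, e j * Real.log |c j (sel (c j) (a j) y0)| with hk
    have hFI : ∫⁻ y in I, F y = ∫⁻ y in I, ENNReal.ofReal (|m| * Real.exp (-(θ * |m * y + k|))) := by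
      refine setLIntegral_congr_fun hIm fun y hy => ?_
      simp only [hF]
      have e1 : ∑ j, e j * ta (c j) (a j) y = m := by
        rw [hm]
        refine Finset.sum_congr rfl fun j _ => ?_
        unfold ta
        rw [sel_const hc hI hPx h0 hy]
      have e2 : ∑ j, e j * Real.log (mx (c j) (a j) y) = m * y + k := by
        rw [hm, hk, Finset.sum_mul, ← Finset.sum_add_distrib]
        refine Finset.sum_congr rfl fun j _ => ?_
        unfold mx
        rw [sel_const hc hI hPx h0 hy, mon_abs (hc j), Real.log_exp]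
        ring
      rw [e1, e2]
    rw [hFI]
    exact (setLIntegral_le_lintegral _ _).trans (affine_int m k θ hθ)
  have h := split_int F (ENNReal.ofReal (2 / θ)) P univ ordConnected_univ key
  rw [setLIntegral_univ] at h
  refine h.trans ?_
  rw [ENNReal.ofReal_mul (by positivity)]
  gcongr
  rw [ENNReal.ofReal_add (by positivity) (by norm_num), ENNReal.ofReal_one]
  gcongr
  rw [← ENNReal.ofReal_natCast]
  apply ENNReal.ofReal_le_ofReal
  exact_mod_cast hcard

end Pool.Agent.T9h53.TA
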