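import Pool.Agent.T9h20.TA.Spec2

/-!
# (J) of the TA group: `∫ |p| |z| |x|^(p-1)` over `|z x^p| ≤ 1` is at most `2`
-/

set_option autoImplicit false

open MeasureTheory Set
open scoped ENNReal NNReal

namespace Pool.Agent.T9h53.TA

open Pool.Agent.T9h20.TA

theorem phP_abs (p : ℤ) (z x y : ℝ) (h : |x| = |y|) : phP p z x = phP p |z| y := by
  have h1 : |z * x ^ p| = abs (|z| * y ^ p) := by
    rw [abs_mul, abs_mul, abs_abs, abs_zpow, abs_zpow, h]
  have h2 : ‖(p : ℝ) * (z * x ^ p / x)‖ₑ = ‖(p : ℝ) * (|z| * y ^ p / y)‖ₑ := by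
    rw [Real.enorm_eq_ofReal_abs, Real.enorm_eq_ofReal_abs, abs_mul, abs_mul (p : ℝ), abs_div,
      abs_div, h1, h]
  unfold phP
  rw [h1, h2]

theorem half (p : ℤ) (hp : p ≠ 0) (z : ℝ) (hz : 0 < z) :
    ∫⁻ x in Ioi (0 : ℝ), phP p z x ≤ 1 := by
  set s : Set ℝ := Ioi 0 ∩ {x | |z * x ^ p| ≤ 1} with hs0
  have hmeas : Measurable fun x : ℝ => |z * x ^ p| := by
    have h : Measurable fun x : ℝ => x ^ p := by
      rcases p with n | n
      · simp only [Int.ofNat_eq_natCast, zpow_natCast]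
        fun_prop
      · simp only [zpow_negSucc]
        fun_prop
    exact (h.const_mul z).abs
  have hs : MeasurableSet s := measurableSet_Ioi.inter (measurableSet_le hmeas measurable_const)
  have h1 : ∫⁻ x in Ioi (0 : ℝ), phP p z x =
      ∫⁻ x in s, ENNReal.ofReal |z * ((p : ℝ) * x ^ (p - 1))| * (1 : ℝ≥0∞) := by
    rw [← lintegral_indicator measurableSet_Ioi, ← lintegral_indicator hs]
    refine lintegral_congr fun x => ?_
    by_cases hx : 0 < x
    · rw [indicator_of_mem (show x ∈ Ioi (0 : ℝ) from hx)]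
      by_cases h : |z * x ^ p| ≤ 1
      · rw [indicator_of_mem (show x ∈ s from ⟨hx, h⟩), mul_one]
        unfold phP
        rw [if_pos h, Real.enorm_eq_ofReal_abs]
        congr 2
        rw [zpow_sub_one₀ hx.ne']
        field_simp
      · rw [indicator_of_notMem (show x ∉ s from fun h' => h h'.2)]
        unfold phP
        rw [if_neg h]
    · rw [indicator_of_notMem (show x ∉ Ioi (0 : ℝ) from fun h' => hx h'),
        indicator_of_notMem (show x ∉ s from fun h' => hx h'.1)]
  have hder : ∀ x ∈ s, HasDerivWithinAt (fun x : ℝ => z * x ^ p) (z * ((p : ℝ) * x ^ (p - 1))) s x := by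
    intro x hx
    exact ((hasDerivAt_zpow p x (Or.inl (ne_of_gt hx.1))).const_mul z).hasDerivWithinAt
  have hinj : InjOn (fun x : ℝ => z * x ^ p) s := by
    intro x hx y hy hxy
    have hxy' : x ^ p = y ^ p := mul_left_cancel₀ hz.ne' hxy
    have hx0 : (0 : ℝ) < x := hx.1
    have hy0 : (0 : ℝ) < y := hy.1
    exact (zpow_left_injOn₀ hp) (le_of_lt hx0) (le_of_lt hy0) hxy'
  rw [h1, ← lintegral_image_eq_lintegral_abs_deriv_mul hs hder hinj (fun _ => (1 : ℝ≥0∞))]
  rw [setLIntegral_one]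
  have hsub : (fun x : ℝ => z * x ^ p) '' s ⊆ Icc 0 1 := by
    rintro _ ⟨x, hx, rfl⟩
    have hx0 : (0 : ℝ) < x := hx.1
    have h0 : 0 < z * x ^ p := mul_pos hz (zpow_pos hx0 p)
    exact ⟨h0.le, (le_abs_self _).trans hx.2⟩
  calc volume ((fun x : ℝ => z * x ^ p) '' s) ≤ volume (Icc (0 : ℝ) 1) := measure_mono hsub
    _ = 1 := by simp

theorem sPhP : SPhP := by
  intro p z
  by_cases hp : p = 0
  · subst hp
    have : ∀ x, phP 0 z x = 0 := by
      intro x
      unfold phP
      simp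
    simp [this]
  by_cases hz : z = 0
  · subst hz
    have : ∀ x, phP p 0 x = 0 := by
      intro x
      unfold phP
      simp
    simp [this]
  have hz' : 0 < |z| := abs_pos.2 hz
  have hA : ∫⁻ x in Ioi (0 : ℝ), phP p z x ≤ 1 := by
    have : ∀ x, phP p z x = phP p |z| x := fun x => phP_abs p z x x rfl
    simp only [this]
    exact half p hp _ hz'
  have hB : ∫⁻ x in Iio (0 : ℝ), phP p z x ≤ 1 := by
    have him : (fun x : ℝ => -x) '' Ioi 0 = Iio 0 := by
      ext y
      constructor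
      · rintro ⟨x, hx, rfl⟩
        have : (0 : ℝ) < x := hx
        show -x < 0
        linarith
      · intro hy
        have : y < 0 := hy
        exact ⟨-y, by show (0 : ℝ) < -y; linarith, by simp⟩
    have hd : ∀ x ∈ Ioi (0 : ℝ), HasDerivWithinAt (fun x : ℝ => -x) (-1) (Ioi 0) x := by
      intro x _
      exact (hasDerivAt_neg x).hasDerivWithinAt
    have hi : InjOn (fun x : ℝ => -x) (Ioi 0) := fun x _ y _ h => neg_injective h
    rw [← him, lintegral_image_eq_lintegral_abs_deriv_mul measurableSet_Ioi hd hi]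
    have : ∀ x, ENNReal.ofReal |(-1 : ℝ)| * phP p z (-x) = phP p |z| x := by
      intro x
      rw [phP_abs p z (-x) x (abs_neg x)]
      simp
    simp only [this]
    exact half p hp _ hz'
  calc ∫⁻ x, phP p z x = (∫⁻ x in Ioi (0 : ℝ), phP p z x) + ∫⁻ x in (Ioi (0 : ℝ))ᶜ, phP p z x :=
        (lintegral_add_compl _ measurableSet_Ioi).symm
    _ = (∫⁻ x in Ioi (0 : ℝ), phP p z x) + ∫⁻ x in Iio (0 : ℝ), phP p z x := by
        rw [compl_Ioi, setLIntegral_congr Iio_ae_eq_Iic]
    _ ≤ 1 + 1 := add_le_add hA hB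
    _ = 2 := one_add_one_eq_two

end Pool.Agent.T9h53.TA
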